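import Pool.Agent.Helper608.KRefl

open Pool.Agent.Helper608.SphMCF

namespace Pool.Agent.Results.MP_1709b7_gt.ImmersedSphere

/-- The function
`α(x) = n c + n x / (2 (n - 1)) - (n - 2) √(x² + 4 (n - 1) c x) / (2 (n - 1))`. -/
noncomputable def alpha (n : ℕ) (c x : ℝ) : ℝ :=
  n * c + n / (2 * (n - 1)) * x - (n - 2) / (2 * (n - 1)) * √(x ^ 2 + 4 * (n - 1) * c * x)

/-- There is a smooth immersion `F₀` of the sphere `S²` into the unit sphere `S³` with
`|A|² < α(|H|²)` everywhere (for `n = 2`, `q = 1`, `c = 1`), such that every smooth mean curvature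
flow on `[0, T)` with initial value `F₀` has `T ≤ 1/100` and does not shrink to a point. So the
flow starting at `F₀` neither converges to a round point nor exists for all times. -/
theorem result : ∃ F₀ : S → V,
    IsSmooth F₀ ∧ (∀ x, ‖F₀ x‖ = 1) ∧ IsImmersion F₀ ∧ (∀ x, ∃ e, IsFrame F₀ x e) ∧
    (∀ x e, IsFrame F₀ x e → normSqA F₀ x e < alpha 2 1 (‖meanCurv F₀ x e‖ ^ 2)) ∧
    ∀ (T : EReal) (F : ℝ → S → V), IsMCF F₀ T F →
      T ≤ ((1 / 100 : ℝ) : EReal) ∧ ¬ ShrinksToPoint T F := by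
  refine ⟨F0, F0_smooth, F0_norm, F0_imm, exists_frame F0_imm, ?_, main_all⟩
  intro x e he
  have h1 := F0_gauss he
  have h2 := pinching_eq F0_smooth x e
  have h3 : alpha 2 1 (‖meanCurv F0 x e‖ ^ 2) = 2 + ‖meanCurv F0 x e‖ ^ 2 := by
    rw [alpha]
    norm_num
  rw [h3]
  linarith

end Pool.Agent.Results.MP_1709b7_gt.ImmersedSphere
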